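import Mathlib

/-!
# Simplicial deletion does not preserve d-chordality of d-closures
-/

set_option autoImplicit false

namespace Pool.Agent.Results.MP_eff1f1_co.NotGreedy

/-- The `d`-closure of a family of subsets of `[n]`. -/
def dClosure {n : ℕ} (d : ℕ) (Γ : Set (Finset (Fin n))) : Set (Finset (Fin n)) :=
  {F | F.card ≤ d ∨ ∀ G : Finset (Fin n), G ⊆ F → G.card = d + 1 → G ∈ Γ}

/-- `Γ` is a simplicial complex equal to its `d`-closure. -/
def IsDClosure {n : ℕ} (d : ℕ) (Γ : Set (Finset (Fin n))) : Prop :=
  (∀ F ∈ Γ, ∀ G : Finset (Fin n), G ⊆ F → G ∈ Γ) ∧ Γ = dClosure d Γ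

/-- Facets: inclusion-maximal faces. -/
def IsFacet {n : ℕ} (Γ : Set (Finset (Fin n))) (F : Finset (Fin n)) : Prop :=
  F ∈ Γ ∧ ∀ G ∈ Γ, F ⊆ G → G = F

/-- Simplicial faces: faces of dimension `d - 1` contained in exactly one facet. -/
def Simp {n : ℕ} (d : ℕ) (Γ : Set (Finset (Fin n))) : Set (Finset (Fin n)) :=
  {E | E ∈ Γ ∧ E.card = d ∧ ∃! F, IsFacet Γ F ∧ E ⊆ F}

/-- The deletion `Γ⟨E⟩`: remove every face that strictly contains `E`. -/
def del {n : ℕ} (Γ : Set (Finset (Fin n))) (E : Finset (Fin n)) : Set (Finset (Fin n)) :=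
  {F | F ∈ Γ ∧ ¬ E ⊂ F}

/-- `d`-chordality of `d`-closures: `Γ` is the complex of all sets with at most `d` elements, or
`Γ⟨E⟩` is `d`-chordal for some simplicial face `E` of `Γ` that is not a facet. -/
inductive Chordal {n : ℕ} (d : ℕ) : Set (Finset (Fin n)) → Prop
  | base : Chordal d {F | F.card ≤ d}
  | step (Γ : Set (Finset (Fin n))) (E : Finset (Fin n)) : IsDClosure d Γ → E ∈ Simp d Γ →
      ¬ IsFacet Γ E → Chordal d (del Γ E) → Chordal d Γ

/-! ### Complexes given by their sets of size 4 -/

/-- The complex whose faces are the cliques of a family of 4-sets. -/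
def cl (T : Set (Finset (Fin 8))) : Set (Finset (Fin 8)) :=
  {F | ∀ G : Finset (Fin 8), G ⊆ F → G.card = 4 → G ∈ T}

theorem cl_mem {T : Set (Finset (Fin 8))} {F : Finset (Fin 8)} (h : F.card ≤ 3) : F ∈ cl T := by
  intro G hG hc
  have := Finset.card_le_card hG
  omega

theorem cl_four {T : Set (Finset (Fin 8))} {F : Finset (Fin 8)} (h : F.card = 4) :
    F ∈ cl T ↔ F ∈ T := by
  constructor
  · intro hF
    exact hF F (Finset.Subset.refl _) h
  · intro hF G hG hc
    rwa [Finset.eq_of_subset_of_card_le hG (by omega)]

theorem isDClosure_cl (T : Set (Finset (Fin 8))) : IsDClosure 3 (cl T) := by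
  refine ⟨fun F hF G hG H hH hc => hF H (hH.trans hG) hc, ?_⟩
  ext F
  constructor
  · intro hF
    right
    intro G hG hc
    rw [cl_four hc]
    exact hF G hG hc
  · rintro (h | h)
    · exact cl_mem h
    · intro G hG hc
      rw [← cl_four hc]
      exact h G hG hc

theorem del_cl (T : Set (Finset (Fin 8))) (E : Finset (Fin 8)) (hE : E.card = 3) :
    del (cl T) E = cl {G | G ∈ T ∧ ¬ E ⊆ G} := by
  ext F
  constructor
  · rintro ⟨hF, hEF⟩ G hG hc
    refine ⟨hF G hG hc, fun h => hEF ?_⟩
    refine ⟨h.trans hG, fun h' => ?_⟩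
    have := Finset.card_le_card (hG.trans h')
    omega
  · intro hF
    refine ⟨fun G hG hc => (hF G hG hc).1, fun h => ?_⟩
    obtain ⟨G, hEG, hGF, hc⟩ := Finset.exists_subsuperset_card_eq h.1 (n := 4) (by omega)
      (by have := Finset.card_lt_card h; omega)
    exact (hF G hGF hc).2 hEG

/-- The neighbours of `E`. -/
noncomputable def nb (T : Set (Finset (Fin 8))) (E : Finset (Fin 8)) : Finset (Fin 8) := by
  classical exact Finset.univ.filter fun v => v ∉ E ∧ insert v E ∈ T

theorem mem_nb {T : Set (Finset (Fin 8))} {E : Finset (Fin 8)} {v : Fin 8} :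
    v ∈ nb T E ↔ v ∉ E ∧ insert v E ∈ T := by
  classical
  simp [nb]

theorem face_subset {T : Set (Finset (Fin 8))} {E F : Finset (Fin 8)} (hE : E.card = 3)
    (hF : F ∈ cl T) (h : E ⊆ F) : F ⊆ E ∪ nb T E := by
  intro v hv
  rw [Finset.mem_union, mem_nb]
  by_cases hvE : v ∈ E
  · exact Or.inl hvE
  · refine Or.inr ⟨hvE, hF _ (Finset.insert_subset hv h) ?_⟩
    rw [Finset.card_insert_of_notMem hvE, hE]

theorem simp_iff {T : Set (Finset (Fin 8))} {E : Finset (Fin 8)} (hE : E.card = 3) :
    (E ∈ Simp 3 (cl T) ∧ ¬ IsFacet (cl T) E) ↔ nb T E ≠ ∅ ∧ E ∪ nb T E ∈ cl T := by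
  constructor
  · rintro ⟨⟨h1, h2, F, ⟨hF, hEF⟩, hu⟩, hn⟩
    have h3 : ∀ G ∈ cl T, E ⊆ G → G ⊆ F := by
      intro G hG hEG
      obtain ⟨H, hGH, hH⟩ := (Set.toFinite (cl T)).exists_le_maximal hG
      have := hu H ⟨⟨hH.prop, fun K hK hHK => le_antisymm (hH.le_of_ge hK hHK) hHK⟩,
        hEG.trans hGH⟩
      rw [← this]
      exact hGH
    constructor
    · intro h0
      apply hn
      refine ⟨h1, fun G hG hEG => ?_⟩
      have := face_subset hE hG hEG
      rw [h0, Finset.union_empty] at this
      exact Finset.Subset.antisymm this hEG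
    · have h4 : E ∪ nb T E ⊆ F := by
        refine Finset.union_subset hEF fun v hv => ?_
        obtain ⟨h5, h6⟩ := mem_nb.1 hv
        have hc : (insert v E).card = 4 := by rw [Finset.card_insert_of_notMem h5, hE]
        exact h3 _ ((cl_four hc).2 h6) (Finset.subset_insert _ _) (Finset.mem_insert_self _ _)
      exact (isDClosure_cl T).1 F hF.1 _ h4
  · rintro ⟨h1, h2⟩
    refine ⟨⟨cl_mem hE.le, hE, E ∪ nb T E, ⟨⟨h2, fun G hG hG' => ?_⟩, Finset.subset_union_left⟩,
      ?_⟩, ?_⟩
    · exact Finset.Subset.antisymm
        (face_subset hE hG (Finset.subset_union_left.trans hG')) hG'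
    · rintro F ⟨hF, hEF⟩
      exact (hF.2 _ h2 (face_subset hE hF.1 hEF)).symm
    · intro hf
      have := hf.2 _ h2 Finset.subset_union_left
      obtain ⟨v, hv⟩ := Finset.nonempty_iff_ne_empty.2 h1
      have hv' : v ∈ E := by
        rw [← this]
        exact Finset.mem_union_right _ hv
      exact (mem_nb.1 hv).1 hv'

/-! ### Bit masks -/

/-- The subset of `Fin 8` coded by a number. -/
def ofMask (m : ℕ) : Finset (Fin 8) := Finset.univ.filter fun i => m.testBit i = true

theorem mem_ofMask {m : ℕ} {i : Fin 8} : i ∈ ofMask m ↔ m.testBit i = true := by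
  simp [ofMask]

theorem exists_mask (E : Finset (Fin 8)) : ∃ m < 256, ofMask m = E := by
  refine ⟨Nat.ofBits (fun i : Fin 8 => decide (i ∈ E)), Nat.ofBits_lt_two_pow _, ?_⟩
  ext i
  rw [mem_ofMask, Nat.testBit_ofBits_lt _ _ i.isLt]
  simp

theorem mask_inj {a b : ℕ} (ha : a < 256) (hb : b < 256) (h : ofMask a = ofMask b) : a = b := by
  apply Nat.eq_of_testBit_eq
  intro i
  rcases Nat.lt_or_ge i 8 with hi | hi
  · have := Finset.ext_iff.1 h ⟨i, hi⟩
    rw [mem_ofMask, mem_ofMask] at this
    exact Bool.eq_iff_iff.2 this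
  · have h1 : a < 2 ^ i := lt_of_lt_of_le ha (Nat.pow_le_pow_right (n := 2) (by norm_num) hi)
    have h2 : b < 2 ^ i := lt_of_lt_of_le hb (Nat.pow_le_pow_right (n := 2) (by norm_num) hi)
    rw [Nat.testBit_lt_two_pow h1, Nat.testBit_lt_two_pow h2]

/-- Number of elements. -/
def pop (m : ℕ) : ℕ :=
  (m.testBit 0).toNat + (m.testBit 1).toNat + (m.testBit 2).toNat + (m.testBit 3).toNat +
  (m.testBit 4).toNat + (m.testBit 5).toNat + (m.testBit 6).toNat + (m.testBit 7).toNat

theorem card_ofMask (m : ℕ) : (ofMask m).card = pop m := by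
  rw [ofMask, Finset.card_filter, Fin.sum_univ_eight]
  unfold pop
  have : ∀ b : Bool, (if b = true then 1 else 0) = b.toNat := by decide
  simp only [this]
  rfl

/-- Inclusion of the coded sets. -/
def sub (a b : ℕ) : Bool := (a &&& b) == a

theorem sub_iff {a b : ℕ} (ha : a < 256) : sub a b = true ↔ ofMask a ⊆ ofMask b := by
  unfold sub
  rw [beq_iff_eq]
  constructor
  · intro h i hi
    rw [mem_ofMask] at hi ⊢
    rw [← h, Nat.testBit_and, Bool.and_eq_true] at hi
    exact hi.2
  · intro h
    apply Nat.eq_of_testBit_eq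
    intro i
    rw [Nat.testBit_and]
    rcases Nat.lt_or_ge i 8 with hi | hi
    · by_cases h1 : a.testBit i = true
      · have := @h ⟨i, hi⟩ (mem_ofMask.2 h1)
        rw [mem_ofMask] at this
        simp only at this
        rw [this, h1]
        rfl
      · rw [Bool.not_eq_true] at h1
        rw [h1]
        rfl
    · have h1 : a < 2 ^ i := lt_of_lt_of_le ha (Nat.pow_le_pow_right (n := 2) (by norm_num) hi)
      rw [Nat.testBit_lt_two_pow h1]
      rfl

/-- The family of 4-sets coded by a number. -/
def fam (t : ℕ) : Set (Finset (Fin 8)) := {G | ∃ m, m < 256 ∧ t.testBit m = true ∧ ofMask m = G}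

theorem mem_fam {t m : ℕ} (hm : m < 256) : ofMask m ∈ fam t ↔ t.testBit m = true := by
  constructor
  · rintro ⟨k, hk, h1, h2⟩
    rwa [← mask_inj hk hm h2]
  · intro h
    exact ⟨m, hm, h, rfl⟩

theorem insert_ofMask {e : ℕ} (v : Fin 8) : insert v (ofMask e) = ofMask (e ||| 2 ^ v.val) := by
  ext i
  rw [Finset.mem_insert, mem_ofMask, mem_ofMask, Nat.testBit_or, Bool.or_eq_true,
    Nat.testBit_two_pow]
  constructor
  · rintro (h | h)
    · right
      rw [h]
      simp
    · exact Or.inl h
  · rintro (h | h)
    · exact Or.inr h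
    · left
      have := of_decide_eq_true h
      exact (Fin.ext this).symm

theorem or_lt {e : ℕ} (he : e < 256) (v : Fin 8) : (e ||| 2 ^ v.val) < 256 := by
  have h1 : 2 ^ v.val < 2 ^ 8 := Nat.pow_lt_pow_right (by norm_num) v.isLt
  exact Nat.or_lt_two_pow (n := 8) he h1

/-- `v` is a neighbour of `e`. -/
def isNb (t e v : ℕ) : Bool := (! e.testBit v) && t.testBit (e ||| 2 ^ v)

theorem isNb_iff {t e : ℕ} (he : e < 256) (v : Fin 8) :
    isNb t e v = true ↔ v ∈ nb (fam t) (ofMask e) := by
  rw [mem_nb, insert_ofMask, mem_fam (or_lt he v), mem_ofMask, isNb, Bool.and_eq_true]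
  simp

/-- A test showing that `e` is simplicial, not a facet, and that `u` codes the facet. -/
def good (t e u t' : ℕ) : Bool :=
  decide (pop e = 3) && decide (e < 256) && decide (u < 256) && decide (e ≠ u) &&
  (List.range 8).all (fun v => u.testBit v == (e.testBit v || isNb t e v)) &&
  (List.range 256).all (fun g => !(pop g == 4 && sub g u) || t.testBit g) &&
  (List.range 256).all (fun g => t'.testBit g == (t.testBit g && !(sub e g)))

theorem good_spec {t e u t' : ℕ} (h : good t e u t' = true) :
    (ofMask e ∈ Simp 3 (cl (fam t)) ∧ ¬ IsFacet (cl (fam t)) (ofMask e)) ∧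
      del (cl (fam t)) (ofMask e) = cl (fam t') := by
  simp only [good, Bool.and_eq_true, decide_eq_true_eq, List.all_eq_true, List.mem_range] at h
  obtain ⟨⟨⟨⟨⟨⟨h1, h2⟩, h3⟩, h4⟩, h5⟩, h6⟩, h7⟩ := h
  have hE : (ofMask e).card = 3 := by rw [card_ofMask, h1]
  have hU : ofMask e ∪ nb (fam t) (ofMask e) = ofMask u := by
    ext v
    have h8 := h5 v.val v.isLt
    rw [beq_iff_eq] at h8
    rw [Finset.mem_union, mem_ofMask, mem_ofMask, ← isNb_iff h2, h8, Bool.or_eq_true]
  refine ⟨?_, ?_⟩
  · rw [simp_iff hE, hU]
    constructor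
    · intro h0
      rw [h0, Finset.union_empty] at hU
      exact h4 (mask_inj h2 h3 hU)
    · intro G hG hc
      obtain ⟨g, hg, rfl⟩ := exists_mask G
      rw [← sub_iff hg] at hG
      rw [card_ofMask] at hc
      have h8 := h6 g hg
      rw [hG, hc] at h8
      rw [mem_fam hg]
      simpa using h8
  · rw [del_cl _ _ hE]
    congr 1
    ext G
    obtain ⟨g, hg, rfl⟩ := exists_mask G
    have h8 := h7 g hg
    rw [beq_iff_eq] at h8
    rw [Set.mem_ofPred_eq, mem_fam hg, mem_fam hg, ← sub_iff h2, h8]
    simp

theorem chordal_of_good {t e u t' : ℕ} (h : good t e u t' = true) (hc : Chordal 3 (cl (fam t'))) :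
    Chordal 3 (cl (fam t)) := by
  obtain ⟨⟨h1, h2⟩, h3⟩ := good_spec h
  exact Chordal.step _ _ (isDClosure_cl _) h1 h2 (by rw [h3]; exact hc)

theorem chordal_zero : Chordal 3 (cl (fam 0)) := by
  have : cl (fam 0) = {F | F.card ≤ 3} := by
    ext F
    constructor
    · intro hF
      by_contra hn
      rw [Set.mem_ofPred_eq] at hn
      obtain ⟨G, hG, hc⟩ := Finset.exists_subset_card_eq (s := F) (n := 4) (by omega)
      obtain ⟨m, _, h1, _⟩ := hF G hG hc
      simp at h1
    · intro hF
      exact cl_mem hF
  rw [this]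
  exact Chordal.base

/-- A test showing that `e` is not simplicial or is a facet. -/
def bad (t e : ℕ) : Bool :=
  (List.range 8).all (fun v => ! isNb t e v) ||
  (List.range 256).any (fun g => pop g == 4 && ! t.testBit g &&
    (List.range 8).all (fun v => ! g.testBit v || (e.testBit v || isNb t e v)))

theorem bad_spec {t e : ℕ} (he : e < 256) (h3 : pop e = 3) (h : bad t e = true) :
    ¬ (ofMask e ∈ Simp 3 (cl (fam t)) ∧ ¬ IsFacet (cl (fam t)) (ofMask e)) := by
  have hE : (ofMask e).card = 3 := by rw [card_ofMask, h3]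
  rw [simp_iff hE]
  rintro ⟨h1, h2⟩
  rw [bad, Bool.or_eq_true, List.all_eq_true, List.any_eq_true] at h
  rcases h with h | ⟨g, hg, h⟩
  · apply h1
    rw [Finset.eq_empty_iff_forall_notMem]
    intro v hv
    rw [← isNb_iff he] at hv
    have := h v.val (List.mem_range.2 v.isLt)
    rw [hv] at this
    exact absurd this (by decide)
  · rw [List.mem_range] at hg
    simp only [Bool.and_eq_true, List.all_eq_true, List.mem_range, beq_iff_eq] at h
    obtain ⟨⟨h4, h5⟩, h6⟩ := h
    have h7 : ofMask g ∈ fam t := by
      refine h2 _ ?_ (by rw [card_ofMask, h4])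
      intro v hv
      rw [mem_ofMask] at hv
      have h8 := h6 v.val v.isLt
      rw [hv] at h8
      rw [Finset.mem_union, ← isNb_iff he, mem_ofMask]
      simpa using h8
    rw [mem_fam hg] at h7
    rw [h7] at h5
    exact absurd h5 (by decide)

/-- A test for non-chordality: each possible deletion leads from `t` to `t'`. -/
def dead (t t' g₀ : ℕ) : Bool :=
  decide (g₀ < 256) && decide (pop g₀ = 4) && t.testBit g₀ &&
  (List.range 256).all (fun e => ! (pop e == 3) || (bad t e ||
    (List.range 256).all (fun g => t'.testBit g == (t.testBit g && !(sub e g)))))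

theorem dead_spec {t t' g₀ : ℕ} (h : dead t t' g₀ = true) (hn : ¬ Chordal 3 (cl (fam t'))) :
    ¬ Chordal 3 (cl (fam t)) := by
  simp only [dead, Bool.and_eq_true, decide_eq_true_eq, List.all_eq_true, List.mem_range] at h
  obtain ⟨⟨⟨h1, h2⟩, h3⟩, h4⟩ := h
  intro hc
  generalize hΓ : cl (fam t) = Γ at hc
  cases hc with
  | base =>
    have h5 : ofMask g₀ ∈ cl (fam t) := by
      rw [cl_four (by rw [card_ofMask, h2]), mem_fam h1]
      exact h3
    rw [hΓ, Set.mem_ofPred_eq, card_ofMask, h2] at h5
    omega
  | step _ E _ h5 h6 h7 =>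
    subst hΓ
    obtain ⟨e, he, rfl⟩ := exists_mask E
    have hE := h5.2.1
    have h8 := h4 e he
    rw [card_ofMask] at hE
    rw [hE] at h8
    simp only [beq_self_eq_true, Bool.not_true, Bool.false_or, Bool.or_eq_true,
      List.all_eq_true, List.mem_range, beq_iff_eq] at h8
    rcases h8 with h8 | h8
    · exact bad_spec he hE h8 ⟨h5, h6⟩
    · apply hn
      have h9 : del (cl (fam t)) (ofMask e) = cl (fam t') := by
        rw [del_cl _ _ (by rw [card_ofMask, hE])]
        congr 1
        ext G
        obtain ⟨g, hg, rfl⟩ := exists_mask G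
        rw [Set.mem_ofPred_eq, mem_fam hg, mem_fam hg, ← sub_iff he, h8 g hg]
        simp
      rwa [h9] at h7

/-- A test for complexes that cannot be reduced. -/
def stuck (t g₀ : ℕ) : Bool :=
  decide (g₀ < 256) && decide (pop g₀ = 4) && t.testBit g₀ &&
  (List.range 256).all (fun e => ! (pop e == 3) || bad t e)

theorem stuck_spec {t g₀ : ℕ} (h : stuck t g₀ = true) : ¬ Chordal 3 (cl (fam t)) := by
  simp only [stuck, Bool.and_eq_true, decide_eq_true_eq, List.all_eq_true, List.mem_range] at h
  obtain ⟨⟨⟨h1, h2⟩, h3⟩, h4⟩ := h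
  intro hc
  generalize hΓ : cl (fam t) = Γ at hc
  cases hc with
  | base =>
    have h5 : ofMask g₀ ∈ cl (fam t) := by
      rw [cl_four (by rw [card_ofMask, h2]), mem_fam h1]
      exact h3
    rw [hΓ, Set.mem_ofPred_eq, card_ofMask, h2] at h5
    omega
  | step _ E _ h5 h6 h7 =>
    subst hΓ
    obtain ⟨e, he, rfl⟩ := exists_mask E
    have hE := h5.2.1
    have h8 := h4 e he
    rw [card_ofMask] at hE
    rw [hE] at h8
    simp only [beq_self_eq_true, Bool.not_true, Bool.false_or] at h8
    exact bad_spec he hE h8 ⟨h5, h6⟩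

/-! ### The example -/

/-- The complex `Γ`: 31 sets of size 4. -/
def tΓ : ℕ := 7494972954418142966243982127098981712243780012981190211001481051504640

/-- The complex `Γ⟨{1, 2, 4}⟩`. -/
def t₁ : ℕ := 7494972954418142966243982127098981712243780012981190192987082533634048

/-- The stuck complex. -/
def t₂ : ℕ := 7494972954418142966243982127098981712243780012981190192987081996763136

def c0 : ℕ := 7494972954418142966243982127098981712243780012981190211001481051504640

def c1 : ℕ := 7494972954418142966243982127098981712243780012981190208749131482005504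

def c2 : ℕ := 7494972954418142966243982127098981712243780012981190208749130945134592

def c3 : ℕ := 7494972954418142966243982127098981712243780012981190199741931690393600

def c4 : ℕ := 7494972954418142966243982127098981712243780012981190055626743614537728

def c5 : ℕ := 7494972954418142966243982127098981712243780012981190055626743480320000

def c6 : ℕ := 7494972954418142966243982127098981712243780012981190055626743471931392

def c7 : ℕ := 7494972954418118446315328272877247978691345608034252155800788534296576

def c8 : ℕ := 7494972954418118446315328272877247978691345608034252137786390024814592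

def c9 : ℕ := 7494972954418118446315328272877247957922158173894941623664404707934208

def c10 : ℕ := 7494972954418116913819787406988389599575131023585758004925282524332032

def c11 : ℕ := 7494972954418116913819786693364543246595190494442773280177714332958720

def c12 : ℕ := 7494972131665838253216765615879951967919938003074840463387782658654208

def c13 : ℕ := 7494972131665838253216765615879951967919937964389214235719649068056576

def c14 : ℕ := 7441052238331536973627431585705912706572663675544133090757441847558144

def c15 : ℕ := 7441052238331536973627431585705912706532098856336829749909547344986112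

def c16 : ℕ := 7441052238331536973627431585705912706532098856334468566668112522379264

def c17 : ℕ := 539305891540973186192675723428887254080989884164082011505588298579968

def c18 : ℕ := 539305891540973186099139618639709467315954054870239898247608615829504

def c19 : ℕ := 539200579249304628912441700612025796883635159774839349136354304851968

def c20 : ℕ := 539200579249304628912441700568469653917755036451527399385087973785600

def c21 : ℕ := 539200579249304628164152862255047359797468402100790493321250511781888

def c22 : ℕ := 539200579249304628164152862255047276720718665543548436833309244260352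

def c23 : ℕ := 539200579249304628164152862255047276720718665505769504970352082550784

def c24 : ℕ := 431360792580702068985484801906968754026170087815607215045937641553920

def c25 : ℕ := 431360792580702068985461965943885458668073155240096023123755517607936

def c26 : ℕ := 431360792580702068985461965246987171213991182067104827103494220546048

def c27 : ℕ := 431359147076144747779419810277804613863486199331239193523630871937024

def c28 : ℕ := 431359147076144747779419810277804613863484961391199908143355972812800

def c29 : ℕ := 401734511064747568885490523085290650630550748445698208825344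

def c30 : ℕ := 0

theorem chordal_29 : Chordal 3 (cl (fam c29)) :=
  chordal_of_good (e := 70) (u := 198) (t' := c30) (by decide +kernel) chordal_zero

theorem chordal_28 : Chordal 3 (cl (fam c28)) :=
  chordal_of_good (e := 164) (u := 228) (t' := c29) (by decide +kernel) chordal_29

theorem chordal_27 : Chordal 3 (cl (fam c27)) :=
  chordal_of_good (e := 82) (u := 90) (t' := c28) (by decide +kernel) chordal_28

theorem chordal_26 : Chordal 3 (cl (fam c26)) :=
  chordal_of_good (e := 146) (u := 210) (t' := c27) (by decide +kernel) chordal_27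

theorem chordal_25 : Chordal 3 (cl (fam c25)) :=
  chordal_of_good (e := 11) (u := 139) (t' := c26) (by decide +kernel) chordal_26

theorem chordal_24 : Chordal 3 (cl (fam c24)) :=
  chordal_of_good (e := 152) (u := 154) (t' := c25) (by decide +kernel) chordal_25

theorem chordal_23 : Chordal 3 (cl (fam c23)) :=
  chordal_of_good (e := 162) (u := 226) (t' := c24) (by decide +kernel) chordal_24

theorem chordal_22 : Chordal 3 (cl (fam c22)) :=
  chordal_of_good (e := 67) (u := 75) (t' := c23) (by decide +kernel) chordal_23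

theorem chordal_21 : Chordal 3 (cl (fam c21)) :=
  chordal_of_good (e := 52) (u := 116) (t' := c22) (by decide +kernel) chordal_22

theorem chordal_20 : Chordal 3 (cl (fam c20)) :=
  chordal_of_good (e := 41) (u := 169) (t' := c21) (by decide +kernel) chordal_21

theorem chordal_19 : Chordal 3 (cl (fam c19)) :=
  chordal_of_good (e := 133) (u := 135) (t' := c20) (by decide +kernel) chordal_20

theorem chordal_18 : Chordal 3 (cl (fam c18)) :=
  chordal_of_good (e := 200) (u := 216) (t' := c19) (by decide +kernel) chordal_19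

theorem chordal_17 : Chordal 3 (cl (fam c17)) :=
  chordal_of_good (e := 38) (u := 166) (t' := c18) (by decide +kernel) chordal_18

theorem chordal_16 : Chordal 3 (cl (fam c16)) :=
  chordal_of_good (e := 104) (u := 232) (t' := c17) (by decide +kernel) chordal_17

theorem chordal_15 : Chordal 3 (cl (fam c15)) :=
  chordal_of_good (e := 69) (u := 71) (t' := c16) (by decide +kernel) chordal_16

theorem chordal_14 : Chordal 3 (cl (fam c14)) :=
  chordal_of_good (e := 97) (u := 105) (t' := c15) (by decide +kernel) chordal_15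

theorem chordal_13 : Chordal 3 (cl (fam c13)) :=
  chordal_of_good (e := 193) (u := 225) (t' := c14) (by decide +kernel) chordal_14

theorem chordal_12 : Chordal 3 (cl (fam c12)) :=
  chordal_of_good (e := 21) (u := 85) (t' := c13) (by decide +kernel) chordal_13

theorem chordal_11 : Chordal 3 (cl (fam c11)) :=
  chordal_of_good (e := 145) (u := 209) (t' := c12) (by decide +kernel) chordal_12

theorem chordal_10 : Chordal 3 (cl (fam c10)) :=
  chordal_of_good (e := 148) (u := 149) (t' := c11) (by decide +kernel) chordal_11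

theorem chordal_9 : Chordal 3 (cl (fam c9)) :=
  chordal_of_good (e := 176) (u := 180) (t' := c10) (by decide +kernel) chordal_10

theorem chordal_8 : Chordal 3 (cl (fam c8)) :=
  chordal_of_good (e := 50) (u := 114) (t' := c9) (by decide +kernel) chordal_9

theorem chordal_7 : Chordal 3 (cl (fam c7)) :=
  chordal_of_good (e := 22) (u := 54) (t' := c8) (by decide +kernel) chordal_8

theorem chordal_6 : Chordal 3 (cl (fam c6)) :=
  chordal_of_good (e := 56) (u := 184) (t' := c7) (by decide +kernel) chordal_7

theorem chordal_5 : Chordal 3 (cl (fam c5)) :=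
  chordal_of_good (e := 19) (u := 23) (t' := c6) (by decide +kernel) chordal_6

theorem chordal_4 : Chordal 3 (cl (fam c4)) :=
  chordal_of_good (e := 25) (u := 27) (t' := c5) (by decide +kernel) chordal_5

theorem chordal_3 : Chordal 3 (cl (fam c3)) :=
  chordal_of_good (e := 49) (u := 57) (t' := c4) (by decide +kernel) chordal_4

theorem chordal_2 : Chordal 3 (cl (fam c2)) :=
  chordal_of_good (e := 37) (u := 53) (t' := c3) (by decide +kernel) chordal_3

theorem chordal_1 : Chordal 3 (cl (fam c1)) :=
  chordal_of_good (e := 28) (u := 29) (t' := c2) (by decide +kernel) chordal_2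

theorem chordal_0 : Chordal 3 (cl (fam c0)) :=
  chordal_of_good (e := 35) (u := 55) (t' := c1) (by decide +kernel) chordal_1

theorem not_chordal : ¬ Chordal 3 (cl (fam t₁)) :=
  dead_spec (t' := t₂) (g₀ := 27) (by decide +kernel)
    (stuck_spec (g₀ := 27) (by decide +kernel))

/-- **Theorem.** For `d = 3` and `n = 8` there are a 3-chordal 3-closure `Γ` and a simplicial face
`E` of `Γ` such that `Γ⟨E⟩` is not 3-chordal. -/
theorem result : ∃ (d n : ℕ) (Γ : Set (Finset (Fin n))) (E : Finset (Fin n)),
    d = 3 ∧ n = 8 ∧ IsDClosure d Γ ∧ Chordal d Γ ∧ E ∈ Simp d Γ ∧ ¬ Chordal d (del Γ E) := by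
  refine ⟨3, 8, cl (fam c0), ofMask 22, rfl, rfl, isDClosure_cl _, chordal_0, ?_, ?_⟩
  · exact (good_spec (t := c0) (e := 22) (u := 55) (t' := t₁) (by decide +kernel)).1.1
  · rw [(good_spec (t := c0) (e := 22) (u := 55) (t' := t₁) (by decide +kernel)).2]
    exact not_chordal

end Pool.Agent.Results.MP_eff1f1_co.NotGreedy
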